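import Mathlib

/-!
# The irreducible Coxeter group `H₃` is integrable

In `W = W(H₃)` all simple reflections are conjugate, so `W'` is the kernel of the sign. The longest
element `z = (abc)⁵` is a central involution of odd length. So `W ≅ W' × ⟨z⟩`, and this is the
derived subgroup of `W × D₈`.
-/

set_option autoImplicit false

namespace Pool.Agent.Results.MP_417677_al.IntegrableH3

/-- A group is integrable if it is isomorphic to the derived subgroup of some group. -/
def IsIntegrable (G : Type) [Group G] : Prop :=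
  ∃ (H : Type) (_ : Group H), Nonempty (commutator H ≃* G)

/-- The Coxeter diagram: `s` and `t` are joined iff `s ≠ t` and `m(s,t) ≠ 2` (`0` encodes `∞`). -/
def diagram {B : Type} (M : CoxeterMatrix B) : SimpleGraph B where
  Adj s t := s ≠ t ∧ M s t ≠ 2
  symm := ⟨fun s t h => ⟨h.1.symm, by rw [M.symmetric]; exact h.2⟩⟩
  loopless := ⟨fun s h => h.1 rfl⟩

section braid

variable {B : Type} {M : CoxeterMatrix B} {W : Type} [Group W] (cs : CoxeterSystem M W)

open CoxeterSystem

variable [DecidableEq B]

/-- Replace, if possible, the alternating word of length `M i j` at position `k`. -/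
def mv (M : CoxeterMatrix B) (u : List B) (x : ℕ × B × B) : List B :=
  if (u.drop x.1).take (M x.2.1 x.2.2) = CoxeterSystem.alternatingWord x.2.1 x.2.2 (M x.2.1 x.2.2)
  then u.take x.1 ++ (CoxeterSystem.alternatingWord x.2.2 x.2.1 (M x.2.1 x.2.2) ++
    u.drop (x.1 + M x.2.1 x.2.2))
  else u

lemma mv_sound (u : List B) (x : ℕ × B × B) : cs.wordProd (mv M u x) = cs.wordProd u := by
  obtain ⟨k, i, j⟩ := x
  unfold mv
  split_ifs with h
  · simp only at h ⊢
    have h1 : u = u.take k ++ ((u.drop k).take (M i j) ++ u.drop (k + M i j)) := by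
      rw [← List.drop_drop, List.take_append_drop, List.take_append_drop]
    conv_rhs => rw [h1, h]
    rw [cs.wordProd_append, cs.wordProd_append, cs.wordProd_append, cs.wordProd_append]
    congr 2
    have := cs.wordProd_braidWord_eq i j
    unfold braidWord at this
    rw [this, M.symmetric j i]
  · rfl

lemma run_sound (p : List (ℕ × B × B)) (u : List B) :
    cs.wordProd (p.foldl (mv M) u) = cs.wordProd u := by
  induction p generalizing u with
  | nil => rfl
  | cons x p ih => rw [List.foldl_cons, ih, mv_sound]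

end braid

/-- The Coxeter matrix of type `H₃`. -/
abbrev M : CoxeterMatrix (Fin 3) := CoxeterMatrix.H₃

def zw : List (Fin 3) := [0, 1, 2, 0, 1, 2, 0, 1, 2, 0, 1, 2, 0, 1, 2]

def u0 : List (Fin 3) := [1, 2, 0, 1, 2, 0, 1, 2, 0, 1, 2, 0, 1, 2]
def p0 : List (ℕ × Fin 3 × Fin 3) := []
def q0 : List (ℕ × Fin 3 × Fin 3) := [(2, 2, 0), (0, 1, 0), (8, 2, 0), (6, 1, 0), (2, 2, 1), (1, 0, 2), (6, 2, 0), (7, 1, 2), (5, 0, 1), (7, 0, 2), (11, 0, 1), (13, 0, 2)]
def u1 : List (Fin 3) := [0, 1, 2, 1, 2, 0, 1, 2, 0, 1, 2, 0, 1, 2]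
def p1 : List (ℕ × Fin 3 × Fin 3) := [(2, 2, 0), (0, 1, 0)]
def q1 : List (ℕ × Fin 3 × Fin 3) := [(5, 2, 0), (3, 1, 0), (11, 2, 0), (9, 1, 0), (5, 2, 1), (4, 0, 2), (9, 2, 0), (10, 1, 2), (8, 0, 1), (10, 0, 2)]
def u2 : List (Fin 3) := [0, 1, 2, 1, 2, 0, 1, 2, 1, 0, 2, 1, 2, 1]
def p2 : List (ℕ × Fin 3 × Fin 3) := [(5, 2, 0), (3, 1, 0), (11, 2, 0), (9, 1, 0), (5, 2, 1), (4, 0, 2), (9, 2, 0), (10, 1, 2), (8, 0, 1), (7, 2, 0), (5, 1, 0), (1, 2, 1), (0, 0, 2)]
def q2 : List (ℕ × Fin 3 × Fin 3) := [(5, 2, 0), (3, 1, 0), (11, 2, 0), (9, 1, 0), (5, 2, 1), (4, 0, 2), (9, 2, 0)]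
def r : List (ℕ × Fin 3 × Fin 3) := [(2, 2, 0), (0, 1, 0), (8, 2, 0), (6, 1, 0), (2, 2, 1), (1, 0, 2), (6, 2, 0), (7, 1, 2), (5, 0, 1), (7, 0, 2), (11, 0, 1), (13, 0, 2), (4, 2, 0), (2, 1, 0), (10, 2, 0), (8, 1, 0), (4, 2, 1), (3, 0, 2), (8, 2, 0), (9, 1, 2), (7, 0, 1), (9, 0, 2), (6, 2, 0), (4, 1, 0), (0, 2, 1), (4, 2, 0), (5, 1, 2), (3, 0, 1), (9, 0, 1), (2, 2, 0), (8, 2, 0)]

lemma c0 : p0.foldl (mv M) zw = 0 :: u0 := by decide +kernel
lemma d0 : q0.foldl (mv M) zw = u0 ++ [0] := by decide +kernel
lemma c1 : p1.foldl (mv M) zw = 1 :: u1 := by decide +kernel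
lemma d1 : q1.foldl (mv M) zw = u1 ++ [1] := by decide +kernel
lemma c2 : p2.foldl (mv M) zw = 2 :: u2 := by decide +kernel
lemma d2 : q2.foldl (mv M) zw = u2 ++ [2] := by decide +kernel
lemma er : r.foldl (mv M) zw = zw.reverse := by decide +kernel

section W

variable {W : Type} [Group W] (cs : CoxeterSystem M W)

lemma comm_aux (i : Fin 3) (u : List (Fin 3)) (p q : List (ℕ × Fin 3 × Fin 3))
    (hp : p.foldl (mv M) zw = i :: u) (hq : q.foldl (mv M) zw = u ++ [i]) :
    cs.simple i * cs.wordProd zw = cs.wordProd zw * cs.simple i := by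
  have h1 := run_sound cs p zw
  have h2 := run_sound cs q zw
  rw [hp, cs.wordProd_cons] at h1
  rw [hq, cs.wordProd_append, cs.wordProd_singleton] at h2
  calc cs.simple i * cs.wordProd zw = cs.simple i * (cs.simple i * cs.wordProd u) := by rw [h1]
    _ = cs.wordProd u := by simp
    _ = cs.wordProd u * cs.simple i * cs.simple i := by simp
    _ = cs.wordProd zw * cs.simple i := by rw [h2]

lemma z_comm_simple (i : Fin 3) :
    cs.simple i * cs.wordProd zw = cs.wordProd zw * cs.simple i := by
  fin_cases i
  · exact comm_aux cs 0 u0 p0 q0 c0 d0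
  · exact comm_aux cs 1 u1 p1 q1 c1 d1
  · exact comm_aux cs 2 u2 p2 q2 c2 d2

lemma z_comm (g : W) : g * cs.wordProd zw = cs.wordProd zw * g := by
  induction g using cs.simple_induction_left with
  | one => simp
  | mul_simple_left w i ih => rw [mul_assoc, ih, ← mul_assoc, z_comm_simple, mul_assoc]

lemma z_sq : cs.wordProd zw * cs.wordProd zw = 1 := by
  have h := run_sound cs r zw
  rw [er, cs.wordProd_reverse] at h
  nth_rw 1 [← h]
  simp

lemma simple_eq (i j : Fin 3) :
    Abelianization.of (cs.simple i) = Abelianization.of (cs.simple j) := by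
  have key : ∀ i j : Fin 3, ∀ k, M i j = 2 * k + 1 →
      Abelianization.of (cs.simple i) = Abelianization.of (cs.simple j) := by
    intro i j k h
    have h1 := congrArg Abelianization.of (cs.simple_mul_simple_pow i j)
    have hi := congrArg Abelianization.of (cs.simple_mul_simple_self i)
    have hj := congrArg Abelianization.of (cs.simple_mul_simple_self j)
    rw [map_mul, map_one, ← pow_two] at hi hj
    rw [h, map_pow, map_mul, map_one, mul_pow, pow_succ, pow_mul, hi, pow_succ, pow_mul, hj,
      one_pow, one_mul, one_mul] at h1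
    rw [pow_two] at hj
    exact mul_right_cancel (h1.trans hj.symm)
  have h01 := key 0 1 1 (by decide)
  have h12 := key 1 2 2 (by decide)
  fin_cases i <;> fin_cases j <;> simp_all

lemma of_wordProd (u : List (Fin 3)) :
    Abelianization.of (cs.wordProd u) = Abelianization.of (cs.simple 0) ^ u.length := by
  induction u with
  | nil => simp
  | cons i u ih =>
    rw [cs.wordProd_cons, map_mul, ih, simple_eq cs i 0, List.length_cons, pow_succ']

lemma mem_commutator (g : W) : g ∈ commutator W ↔ cs.lengthParity g = 1 := by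
  constructor
  · intro h
    exact Abelianization.commutator_subset_ker cs.lengthParity h
  · intro h
    obtain ⟨u, rfl⟩ := cs.wordProd_surjective g
    have h1 : (u.length : ZMod 2) = 0 := by
      have h2 : ∀ u : List (Fin 3),
          cs.lengthParity (cs.wordProd u) = Multiplicative.ofAdd (u.length : ZMod 2) := by
        intro u
        induction u with
        | nil => simp
        | cons i u ih =>
          rw [cs.wordProd_cons, map_mul, ih, cs.lengthParity_simple, List.length_cons,
            ← ofAdd_add]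
          congr 1
          push_cast
          ring
      rw [h2] at h
      exact h
    have h2 : Even u.length := by
      rwa [ZMod.natCast_eq_zero_iff_even] at h1
    obtain ⟨k, hk⟩ := h2
    have h3 : Abelianization.of (cs.wordProd u) = 1 := by
      rw [of_wordProd, hk, ← two_mul, pow_mul, pow_two, ← map_mul, cs.simple_mul_simple_self]
      simp
    rwa [← MonoidHom.mem_ker, Abelianization.ker_of] at h3

lemma parity_z : cs.lengthParity (cs.wordProd zw) ≠ 1 := by
  have h2 : ∀ u : List (Fin 3),
      cs.lengthParity (cs.wordProd u) = Multiplicative.ofAdd (u.length : ZMod 2) := by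
    intro u
    induction u with
    | nil => simp
    | cons i u ih =>
      rw [cs.wordProd_cons, map_mul, ih, cs.lengthParity_simple, List.length_cons,
        ← ofAdd_add]
      congr 1
      push_cast
      ring
  rw [h2]
  decide

/-- `W` is the direct product of `W'` and the subgroup of order two generated by `z`. -/
lemma exists_iso :
    Nonempty ((commutator W) × Subgroup.zpowers (cs.wordProd zw) ≃* W) := by
  set z := cs.wordProd zw with hz
  have hcomm : ∀ (m : commutator W) (n : Subgroup.zpowers z),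
      Commute ((commutator W).subtype m) ((Subgroup.zpowers z).subtype n) := by
    rintro ⟨m, hm⟩ ⟨n, hn⟩
    obtain ⟨k, rfl⟩ := Subgroup.mem_zpowers_iff.1 hn
    exact Commute.zpow_right (z_comm cs m) k
  let F := MonoidHom.noncommCoprod (commutator W).subtype (Subgroup.zpowers z).subtype hcomm
  have hzz : z * z = 1 := z_sq cs
  have hmem : ∀ n ∈ Subgroup.zpowers z, n = 1 ∨ n = z := by
    intro n hn
    obtain ⟨k, rfl⟩ := Subgroup.mem_zpowers_iff.1 hn
    rcases Int.even_or_odd' k with ⟨l, rfl | rfl⟩
    · left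
      rw [zpow_mul]
      have : z ^ (2 : ℤ) = 1 := by rw [zpow_two, hzz]
      rw [this, one_zpow]
    · right
      rw [zpow_add, zpow_mul]
      have : z ^ (2 : ℤ) = 1 := by rw [zpow_two, hzz]
      rw [this, one_zpow, one_mul, zpow_one]
  refine ⟨MulEquiv.ofBijective F ⟨?_, ?_⟩⟩
  · rw [injective_iff_map_eq_one]
    rintro ⟨⟨m, hm⟩, ⟨n, hn⟩⟩ h
    have h' : m * n = 1 := h
    rcases hmem n hn with rfl | rfl
    · rw [mul_one] at h'
      subst h'
      rfl
    · exfalso
      have h1 := (mem_commutator cs m).1 hm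
      have h2 := congrArg cs.lengthParity h'
      rw [map_mul, h1, one_mul, map_one] at h2
      exact parity_z cs h2
  · intro g
    by_cases hg : cs.lengthParity g = 1
    · refine ⟨(⟨g, (mem_commutator cs g).2 hg⟩, 1), ?_⟩
      change g * 1 = g
      rw [mul_one]
    · have h1 : cs.lengthParity (g * z) = 1 := by
        have h2 := parity_z cs
        rw [map_mul]
        have : ∀ a b : Multiplicative (ZMod 2), a ≠ 1 → b ≠ 1 → a * b = 1 := by decide
        exact this _ _ hg h2
      refine ⟨(⟨g * z, (mem_commutator cs _).2 h1⟩, ⟨z, Subgroup.mem_zpowers z⟩), ?_⟩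
      change g * z * z = g
      rw [mul_assoc, hzz, mul_one]

lemma card_zpowers : Nat.card (Subgroup.zpowers (cs.wordProd zw)) = 2 := by
  rw [Nat.card_zpowers]
  refine orderOf_eq_prime ?_ ?_
  · rw [pow_two, z_sq]
  · intro h
    have := parity_z cs
    rw [h, map_one] at this
    exact this rfl

end W

lemma card_commutator_D8 : Nat.card (commutator (DihedralGroup 4)) = 2 := by
  have h : commutator (DihedralGroup 4) = Subgroup.zpowers (DihedralGroup.r 2) := by
    apply le_antisymm
    · rw [commutator_eq_closure, Subgroup.closure_le]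
      rintro _ ⟨a, b, rfl⟩
      have : ∀ a b : DihedralGroup 4, a * b * a⁻¹ * b⁻¹ = 1 ∨
          a * b * a⁻¹ * b⁻¹ = DihedralGroup.r 2 := by
        intro a b
        rcases a with i | i <;> rcases b with j | j <;> revert i j <;> decide
      change a * b * a⁻¹ * b⁻¹ ∈ _
      rcases this a b with h | h
      · rw [h]; exact one_mem _
      · rw [h]; exact Subgroup.mem_zpowers _
    · rw [Subgroup.zpowers_le]
      have : (DihedralGroup.r 2 : DihedralGroup 4)
          = DihedralGroup.r 1 * DihedralGroup.sr 0 * (DihedralGroup.r 1)⁻¹ *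
            (DihedralGroup.sr 0)⁻¹ := by decide
      rw [this]
      exact Subgroup.commutator_mem_commutator (Subgroup.mem_top _) (Subgroup.mem_top _)
  rw [h, Nat.card_zpowers]
  refine orderOf_eq_prime (by decide) (by decide)

/-- The derived subgroup of a direct product. -/
lemma integrable_prod {G A D : Type} [Group G] [Group A] [Group D]
    (e : commutator G ≃* A) : Nonempty (commutator (G × D) ≃* A × commutator D) := by
  have h : commutator (G × D) = (commutator G).prod (commutator D) := by
    have := Subgroup.commutator_prod_prod (⊤ : Subgroup G) (⊤ : Subgroup G) (⊤ : Subgroup D)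
      (⊤ : Subgroup D)
    rw [Subgroup.top_prod_top] at this
    exact this
  rw [h]
  exact ⟨(Subgroup.prodEquiv _ _).trans (e.prodCongr (MulEquiv.refl _))⟩

/-- Every group with a Coxeter system of type `H₃` is integrable. -/
theorem integrable {W : Type} [Group W] (cs : CoxeterSystem M W) : IsIntegrable W := by
  obtain ⟨e⟩ := exists_iso cs
  obtain ⟨f⟩ := integrable_prod (D := DihedralGroup 4) (MulEquiv.refl (commutator W))
  have : Fact (Nat.Prime 2) := ⟨Nat.prime_two⟩
  have g : commutator (DihedralGroup 4) ≃* Subgroup.zpowers (cs.wordProd zw) :=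
    mulEquivOfPrimeCardEq (p := 2) card_commutator_D8 (card_zpowers cs)
  exact ⟨W × DihedralGroup 4, inferInstance,
    ⟨(f.trans ((MulEquiv.refl _).prodCongr g)).trans e⟩⟩

/-- The images of the generators in the alternating group. -/
def f : Fin 3 → Equiv.Perm (Fin 5)
  | 0 => Equiv.swap 1 2 * Equiv.swap 3 4
  | 1 => Equiv.swap 0 1 * Equiv.swap 3 4
  | 2 => Equiv.swap 1 3 * Equiv.swap 2 4

lemma f_liftable : M.IsLiftable f := by
  intro i j
  fin_cases i <;> fin_cases j <;> decide

lemma not_comm {W : Type} [Group W] (cs : CoxeterSystem M W) :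
    ¬ Nonempty (W ≃* Multiplicative (ZMod 2)) := by
  rintro ⟨e⟩
  have h : cs.simple 0 * cs.simple 1 = cs.simple 1 * cs.simple 0 := by
    apply e.injective
    rw [map_mul, map_mul, mul_comm]
  have h1 := congrArg (cs.lift ⟨f, f_liftable⟩) h
  rw [map_mul, map_mul, cs.lift_apply_simple, cs.lift_apply_simple] at h1
  revert h1
  decide

lemma connected : (diagram M).Connected := by
  have h01 : (diagram M).Adj 0 1 := ⟨by decide, by decide⟩
  have h12 : (diagram M).Adj 1 2 := ⟨by decide, by decide⟩
  have r0 : ∀ i, (diagram M).Reachable 1 i := by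
    intro i
    fin_cases i
    · exact h01.symm.reachable
    · exact SimpleGraph.Reachable.refl _
    · exact h12.reachable
  have : Nonempty (Fin 3) := ⟨0⟩
  exact ⟨fun i j => (r0 i).symm.trans (r0 j)⟩

/-- The Coxeter groups of type `H₃` have a connected diagram, are not of order two and are
integrable. -/
theorem result :
    ∃ (B : Type) (_ : Finite B) (M : CoxeterMatrix B), (diagram M).Connected ∧
      (∃ (W : Type) (_ : Group W), Nonempty (CoxeterSystem M W)) ∧
      ∀ (W : Type) [Group W], CoxeterSystem M W →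
        ¬ Nonempty (W ≃* Multiplicative (ZMod 2)) ∧ IsIntegrable W :=
  ⟨Fin 3, inferInstance, M, connected, ⟨M.Group, inferInstance, ⟨M.toCoxeterSystem⟩⟩,
    fun _ _ cs => ⟨not_comm cs, integrable cs⟩⟩

end Pool.Agent.Results.MP_417677_al.IntegrableH3
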